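import Pool.Agent.K6.H41.FF.Fin
import Pool.Agent.K6.H41.FF.PieceB

/-!
# The Firefighter problem on graphs without a `K_{2,q}` minor, in particular outerplanar graphs

For every fixed `q`, the Firefighter problem on graphs with `n` vertices without a `K_{2,q}` minor
is solved in time `2^{o(n)}` by a word RAM. Outerplanar graphs have no `K_{2,3}` minor, so the case
`q = 3` contains the outerplanar graphs.

The reason is a theorem on the number of rounds: there are `C` and `D` such that under every
optimal strategy the fire has stopped after `i` rounds as soon as `i ^ D > C * n ^ (D - 1)`. So it is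
enough to try all the strategies with `O(n ^ (1 - 1 / D))` moves.

Outline of the proof of the bound. Let `B` be the set of the vertices which burn under an optimal
strategy with many rounds. For most `τ` few vertices catch fire in round `τ + 1`, so the vertices
which burn later are contained in few connected sets `Y`, and (Menger, no `K_{2,q}` minor) each `Y`
is separated by less than `q` vertices from the fire of an earlier round `t`. If in round `t` there
is no short path from the fire to the sets `Y` which avoids the protected vertices, then there is
enough time to protect all these cuts instead of the vertices which are protected after round `t`;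
this saves all the later vertices, and the new burning vertices lie in components of the complement
of `B` and its neighbours which touch a vertex protected between the rounds `t` and `τ + 1`; since
each component touches less than `q` such neighbours, for disjoint intervals `(t, τ + 1]` this cannot
happen often. If short paths existed for all the `t` in a long interval before `τ`, then the first
vertices of a suitable subfamily of these paths outside the fire, the rest of these paths and the
part of `B` that burns would give a `K_{2,q}` minor.
-/

set_option autoImplicit false

namespace Pool.Agent.Results.MP_711ea9_lc.OuterplanarGraphs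

open Pool.Agent.H588R2 Pool.Agent.K6.H41.FF Filter Topology

theorem HaltsWithin.mono {w : ℕ} {P : List Instr} {c : Config} {T T' : ℝ} {out : ℕ}
    (h : HaltsWithin w P c T out) (hT : T ≤ T') : HaltsWithin w P c T' out := by
  obtain ⟨t, h1, h2⟩ := h
  exact ⟨t, h1.trans hT, h2⟩

open Classical in
theorem result (q : ℕ) :
    ∃ (P : List Instr) (c : ℕ) (f : ℕ → ℝ),
      Tendsto (fun n : ℕ => f n / n) atTop (𝓝 0) ∧
      ∀ n k : ℕ, k ≤ n → ∀ G : SimpleGraph (Fin n),
        ¬ HasMinor (completeBipartiteGraph (Fin 2) (Fin q)) G → ∀ s : Fin n,
        HaltsWithin (c * (n + 1)) P (inputConfig G s k) ((2 : ℝ) ^ f n)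
          (if Yes G s k then 1 else 0) := by
  obtain ⟨C, D, hD, h⟩ := rounds_bound q
  obtain ⟨P, c, d, K, hP⟩ := ram C D hD
  obtain ⟨f, hf, hfK⟩ := asym C D d K hD
  refine ⟨P, c, f, hf, fun n k hk G hG s => ?_⟩
  have hr : rounds C D n ^ D ≤ C * n ^ (D - 1) := by
    unfold rounds
    exact Nat.findGreatest_spec (P := fun t => t ^ D ≤ C * n ^ (D - 1)) (Nat.zero_le n)
      (by rw [zero_pow (by omega)]; exact Nat.zero_le _)
  have h1 := HaltsWithin.mono (hP n k hk G s) (hfK n (rounds C D n) hr)
  have h2 : (∃ m : ℕ → Fin n, (∀ i, rounds C D n ≤ i → m i = s) ∧
      (fire G s m (rounds C D n + n)).ncard ≤ k) ↔ Yes G s k := by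
    have h3 := yes_iff_moves G s k (rounds C D n) ?_
    · rw [Nat.card_fin] at h3
      exact h3.symm
    · intro c hc v hv
      have h4 := (h (Fin n) G hG s).1 c hc v hv
      have h5 := tm_lt hv
      rw [Nat.card_fin] at h4 h5
      exact Nat.le_findGreatest h5 h4
  simp only [h2] at h1
  exact h1

end Pool.Agent.Results.MP_711ea9_lc.OuterplanarGraphs
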